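import Pool.Agent.V11245.OmegaPerf

/-!
# A closed continuous image of `κ^κ` which cannot be made `(ω+1)`-perfect
-/

set_option autoImplicit false

namespace Pool.Agent.Results.MP_e6371f_lc.KurepaRetract

open Cardinal Set Pool.Agent.V11245.OmegaPerf

universe u

/-- The negated form holds at every regular uncountable `κ` carrying a family of more than
`κ^{<κ}` subsets of `κ` with fewer than `2^ω` traces on every `α < κ`; such a family exists for
`κ = ω₁` if CH and Kurepa's hypothesis hold. -/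
theorem result :
    (∀ κ : Cardinal.{u}, κ.IsRegular → ℵ₀ < κ → ThinBigFamily κ →
      ∃ E : Set (Pt κ), IsClosed E ∧ (∃ f : Pt κ → Pt κ, Continuous f ∧ range f = E) ∧
        ∀ X ⊆ E, #X ≤ κ ^< κ → ¬ OmegaPlusOnePerfect (E \ X)) ∧
    ((𝔠 : Cardinal.{u}) = ℵ₁ → KurepaHypothesis.{u} → ThinBigFamily (ℵ₁ : Cardinal.{u})) := by
  refine ⟨?_, thinBig_of_CH_KH⟩
  rintro κ hκ hω ⟨𝓑, hB, htr⟩
  obtain ⟨𝓒, hC, htr'⟩ := exists_points hκ 𝓑 hB htr
  exact exists_image hκ hω 𝓒 hC htr'

end Pool.Agent.Results.MP_e6371f_lc.KurepaRetract
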